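import Pool.Agent.W792.GK.Stm

/-!
# Measurability of the resolvent in the potential (part GK-MEAS of helper792's project GK)
-/

namespace Pool.Agent.W933.GK

open Pool.Agent.W792.GK MeasureTheory Filter Topology

section hilbert

variable {E : Type*} [NormedAddCommGroup E] [InnerProductSpace ℂ E] [CompleteSpace E]

theorem lower_bound {A : E →L[ℂ] E} (hA : IsSelfAdjoint A) {z : ℂ} (u : E) :
    |z.im| * ‖u‖ ≤ ‖(A - z • (1 : E →L[ℂ] E)) u‖ := by
  have hre : (inner ℂ u (A u) : ℂ).im = 0 := by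
    have h1 : inner ℂ (A u) u = inner ℂ u (A u) := by
      have := ContinuousLinearMap.adjoint_inner_left A u u
      rw [ContinuousLinearMap.isSelfAdjoint_iff'.1 hA] at this
      exact this
    have h2 := congrArg Complex.im h1
    rw [← inner_conj_symm] at h2
    simp only [Complex.conj_im] at h2
    linarith
  have h3 : (inner ℂ u ((A - z • (1 : E →L[ℂ] E)) u) : ℂ).im = - z.im * ‖u‖ ^ 2 := by
    have e : (A - z • (1 : E →L[ℂ] E)) u = A u - z • u := by simp
    rw [e, inner_sub_right, inner_smul_right, Complex.sub_im, hre, inner_self_eq_norm_sq_to_K]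
    have : ((‖u‖ : ℂ) ^ 2) = ((‖u‖ ^ 2 : ℝ) : ℂ) := by push_cast; rfl
    simp only [Complex.coe_algebraMap]
    rw [this, Complex.mul_im, Complex.ofReal_re, Complex.ofReal_im]
    ring
  rcases eq_or_ne u 0 with rfl | hu
  · simp
  have hn : 0 < ‖u‖ := norm_pos_iff.2 hu
  have h4 : |z.im| * ‖u‖ ^ 2 ≤ ‖u‖ * ‖(A - z • (1 : E →L[ℂ] E)) u‖ := by
    calc |z.im| * ‖u‖ ^ 2 = |- z.im * ‖u‖ ^ 2| := by
          rw [abs_mul, abs_neg, abs_of_nonneg (sq_nonneg ‖u‖)]
      _ = |(inner ℂ u ((A - z • (1 : E →L[ℂ] E)) u) : ℂ).im| := by rw [h3]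
      _ ≤ ‖(inner ℂ u ((A - z • (1 : E →L[ℂ] E)) u) : ℂ)‖ := Complex.abs_im_le_norm _
      _ ≤ _ := norm_inner_le_norm _ _
  rw [sq, ← mul_assoc, mul_comm (|z.im| * ‖u‖) ‖u‖] at h4
  exact le_of_mul_le_mul_left h4 hn

theorem isUnit {A : E →L[ℂ] E} (hA : IsSelfAdjoint A) {z : ℂ} (hz : z.im ≠ 0) :
    IsUnit (A - z • (1 : E →L[ℂ] E)) := by
  have h : z ∉ spectrum ℂ A := by
    intro h
    have := hA.mem_spectrum_eq_re h
    apply hz
    rw [this]
    simp
  rw [spectrum.notMem_iff] at h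
  have e : A - z • (1 : E →L[ℂ] E) = -(algebraMap ℂ (E →L[ℂ] E) z - A) := by
    rw [Algebra.algebraMap_eq_smul_one]; abel
  rw [e]
  exact h.neg

end hilbert

section l2

variable {Γ : Type}

theorem normsq (u : l2 Γ) : ‖u‖ ^ 2 = ∑' x, ‖u x‖ ^ 2 := by
  have h := lp.norm_rpow_eq_tsum (p := 2) (by norm_num) u
  simpa using h

theorem summable_normsq (u : l2 Γ) : Summable fun x => ‖u x‖ ^ 2 := by
  have h := lp.memℓp u
  have := h.summable (by norm_num)
  simpa using this

theorem clamp_abs_le {R : ℝ} (hR : 0 < R) (t : ℝ) : |clamp R t| ≤ R := by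
  unfold clamp
  rw [abs_le]
  constructor
  · exact le_max_left _ _
  · exact max_le (by linarith) (min_le_left _ _)

theorem continuous_clamp (R : ℝ) : Continuous (clamp R) := by
  unfold clamp
  fun_prop

theorem mul_tendsto {R : ℝ} (hR : 0 < R) (M : (Γ → ℝ) → (l2 Γ →L[ℂ] l2 Γ))
    (hM : ∀ v, IsMul R v (M v)) (v₀ : Γ → ℝ) (u : l2 Γ) :
    Tendsto (fun v => ‖(M v₀ - M v) u‖ ^ 2) (𝓝 v₀) (𝓝 0) := by
  have h1 : ∀ v, ‖(M v₀ - M v) u‖ ^ 2 = ∑' x, (|clamp R (v₀ x) - clamp R (v x)| * ‖u x‖) ^ 2 := by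
    intro v
    rw [normsq]
    refine tsum_congr fun x => ?_
    have : ((M v₀ - M v) u : l2 Γ) x = ((clamp R (v₀ x) - clamp R (v x) : ℝ) : ℂ) * u x := by
      rw [sub_apply, lp.coeFn_sub, Pi.sub_apply, (hM v₀).2.2, (hM v).2.2]
      push_cast
      ring
    rw [this, norm_mul, Complex.norm_real, Real.norm_eq_abs]
  simp only [h1]
  have h2 : Tendsto (fun v : Γ → ℝ => ∑' x, (|clamp R (v₀ x) - clamp R (v x)| * ‖u x‖) ^ 2) (𝓝 v₀)
      (𝓝 (∑' x, (|clamp R (v₀ x) - clamp R (v₀ x)| * ‖u x‖) ^ 2)) := by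
    refine tendsto_tsum_of_dominated_convergence (bound := fun x => (2 * R) ^ 2 * ‖u x‖ ^ 2)
      ((summable_normsq u).mul_left _) ?_ ?_
    · intro x
      have hc : Continuous fun v : Γ → ℝ => (|clamp R (v₀ x) - clamp R (v x)| * ‖u x‖) ^ 2 := by
        have := continuous_clamp R
        fun_prop
      exact hc.tendsto v₀
    · refine Eventually.of_forall fun v x => ?_
      rw [Real.norm_eq_abs, abs_of_nonneg (sq_nonneg _), mul_pow]
      refine mul_le_mul_of_nonneg_right ?_ (sq_nonneg _)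
      refine pow_le_pow_left₀ (abs_nonneg _) ?_ 2
      calc |clamp R (v₀ x) - clamp R (v x)| ≤ |clamp R (v₀ x)| + |clamp R (v x)| := abs_sub _ _
        _ ≤ R + R := add_le_add (clamp_abs_le hR _) (clamp_abs_le hR _)
        _ = 2 * R := by ring
  simpa using h2

end l2

theorem main : S_T1 → S_T2 → S_MEAS := by
  intro h1 h2 ι _ _ K R hR z hz
  have hT : IsHop K (hopOp K) := by
    unfold hopOp
    rw [dif_pos (h1 ι K)]
    exact Classical.choose_spec (h1 ι K)
  have hM : ∀ v : (ι → ℤ) → ℝ, IsMul R v (mulOp R v) := by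
    intro v
    unfold mulOp
    rw [dif_pos (h2 _ R hR v)]
    exact Classical.choose_spec (h2 _ R hR v)
  have hA : ∀ v : (ι → ℤ) → ℝ, IsSelfAdjoint (hopOp K + mulOp R v) :=
    fun v => hT.1.add (hM v).1
  set e : l2 (ι → ℤ) := lp.single 2 (0 : ι → ℤ) (1 : ℂ) with he
  set B : ((ι → ℤ) → ℝ) → (l2 (ι → ℤ) →L[ℂ] l2 (ι → ℤ)) := fun v =>
    hopOp K + mulOp R v - z • (1 : l2 (ι → ℤ) →L[ℂ] l2 (ι → ℤ)) with hB
  have hu : ∀ v, IsUnit (B v) := fun v => isUnit (hA v) hz.ne'
  have hinv : ∀ v (w : l2 (ι → ℤ)), B v (Ring.inverse (B v) w) = w := by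
    intro v w
    have := Ring.mul_inverse_cancel _ (hu v)
    have h := congrArg (fun T => T w) this
    simpa using h
  have hinv' : ∀ v (w : l2 (ι → ℤ)), Ring.inverse (B v) (B v w) = w := by
    intro v w
    have := Ring.inverse_mul_cancel _ (hu v)
    have h := congrArg (fun T => T w) this
    simpa using h
  have hbd : ∀ v (w : l2 (ι → ℤ)), ‖Ring.inverse (B v) w‖ ≤ z.im⁻¹ * ‖w‖ := by
    intro v w
    have := lower_bound (hA v) (z := z) (Ring.inverse (B v) w)
    rw [abs_of_pos hz] at this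
    have h3 : ‖(hopOp K + mulOp R v - z • (1 : l2 (ι → ℤ) →L[ℂ] l2 (ι → ℤ)))
      (Ring.inverse (B v) w)‖ = ‖w‖ := by
      have := hinv v w
      rw [hB] at this ⊢
      rw [this]
    rw [h3] at this
    rw [le_inv_mul_iff₀ hz]
    exact this
  have hcont : Continuous fun v => Ring.inverse (B v) e := by
    rw [continuous_iff_continuousAt]
    intro v₀
    rw [ContinuousAt, tendsto_iff_norm_sub_tendsto_zero]
    have hlim : Tendsto (fun v => z.im⁻¹ * Real.sqrt
        (‖(mulOp R v₀ - mulOp R v) (Ring.inverse (B v₀) e)‖ ^ 2)) (𝓝 v₀) (𝓝 0) := by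
      have := mul_tendsto hR (fun v => mulOp R v) hM v₀ (Ring.inverse (B v₀) e)
      have h4 := (Real.continuous_sqrt.tendsto 0).comp this
      rw [Real.sqrt_zero] at h4
      simpa using h4.const_mul (z.im⁻¹)
    refine squeeze_zero (fun v => norm_nonneg _) ?_ hlim
    intro v
    rw [Real.sqrt_sq (norm_nonneg _)]
    have h5 : Ring.inverse (B v) e - Ring.inverse (B v₀) e =
        Ring.inverse (B v) ((mulOp R v₀ - mulOp R v) (Ring.inverse (B v₀) e)) := by
      have h6 : (mulOp R v₀ - mulOp R v) (Ring.inverse (B v₀) e) =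
          e - B v (Ring.inverse (B v₀) e) := by
        have h7 := hinv v₀ e
        rw [hB] at h7 ⊢
        simp only [sub_apply, add_apply] at h7 ⊢
        nth_rewrite 3 [← h7]
        abel
      rw [h6, map_sub, hinv']
    rw [h5]
    exact hbd _ _
  have hJ : Continuous fun v : (ι → ℤ) → ℝ => Jm K R v z := by
    unfold Jm
    have h8 : Continuous fun w : l2 (ι → ℤ) => (w 0).im := by
      have : Continuous fun w : l2 (ι → ℤ) => w 0 :=
        (lp.evalCLM ℂ (fun _ : ι → ℤ => ℂ) 2 0).continuous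
      exact Complex.continuous_im.comp this
    exact h8.comp hcont
  exact hJ.measurable

end Pool.Agent.W933.GK

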